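import Pool.Agent.N396.ZK.Stm

/-!
Project ZK: from Füredi's inequality to the concentration of the degrees.
-/

set_option autoImplicit false

namespace Pool.Agent.N147.ZK

open Finset Classical Pool.Agent.N396.ZK

/-- the pointwise inequality -/
theorem pw (a : ℕ) (ha : 1 ≤ a) (D θ : ℝ) (hD : (a : ℝ) < D) (hθ : θ = (1 - a / D) ^ a) (d : ℕ) :
    D ^ (a + 1) * (θ * ((d / D) * (d / D - 1)) - (1 - θ) / 4) ≤
      (d.descFactorial a : ℝ) * (d - D) := by
  obtain ⟨b, rfl⟩ : ∃ b, a = b + 1 := ⟨a - 1, by omega⟩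
  have hD0 : 0 < D := lt_of_le_of_lt (Nat.cast_nonneg _) hD
  have hP : 0 < D ^ b := by positivity
  have hd0 : (0 : ℝ) ≤ d := Nat.cast_nonneg _
  have hq0 : 0 ≤ 1 - ((b + 1 : ℕ) : ℝ) / D := by
    rw [sub_nonneg, div_le_one hD0]; exact hD.le
  have hq1 : 1 - ((b + 1 : ℕ) : ℝ) / D ≤ 1 := by
    have : 0 ≤ ((b + 1 : ℕ) : ℝ) / D := by positivity
    linarith
  have hθ0 : 0 ≤ θ := by rw [hθ]; positivity
  have hθ1 : θ ≤ 1 := by rw [hθ]; exact pow_le_one₀ hq0 hq1
  have e1 : D ^ (b + 1 + 1) * (θ * ((d / D) * (d / D - 1)) - (1 - θ) / 4) =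
      D ^ b * (θ * (d * (d - D)) - D ^ 2 * (1 - θ) / 4) := by
    field_simp
    ring
  rw [e1]
  rcases le_or_gt D d with h | h
  · have h1 : θ * (d : ℝ) ^ (b + 1) ≤ (d.descFactorial (b + 1) : ℝ) := by
      have h2 : (1 - ((b + 1 : ℕ) : ℝ) / D) * d ≤ ((d + 1 - (b + 1) : ℕ) : ℝ) := by
        have h3 : ((b + 1 : ℕ) : ℝ) ≤ ((b + 1 : ℕ) : ℝ) / D * d := by
          rw [div_mul_eq_mul_div, le_div_iff₀ hD0]
          exact mul_le_mul_of_nonneg_left h (Nat.cast_nonneg _)
        have h4 : (b + 1 : ℕ) ≤ d + 1 := by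
          have : ((b + 1 : ℕ) : ℝ) < d := lt_of_lt_of_le hD h
          have : b + 1 < d := by exact_mod_cast this
          omega
        rw [Nat.cast_sub h4]
        push_cast at h3 ⊢
        nlinarith
      calc θ * (d : ℝ) ^ (b + 1) = ((1 - ((b + 1 : ℕ) : ℝ) / D) * d) ^ (b + 1) := by
            rw [hθ, mul_pow]
        _ ≤ ((d + 1 - (b + 1) : ℕ) : ℝ) ^ (b + 1) :=
            pow_le_pow_left₀ (mul_nonneg hq0 hd0) h2 _
        _ ≤ _ := by exact_mod_cast Nat.pow_sub_le_descFactorial d (b + 1)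
    have h5 : D ^ b * d ≤ (d : ℝ) ^ (b + 1) := by
      rw [pow_succ]
      exact mul_le_mul_of_nonneg_right (pow_le_pow_left₀ hD0.le h _) hd0
    have h6 : θ * (D ^ b * d) ≤ (d.descFactorial (b + 1) : ℝ) :=
      (mul_le_mul_of_nonneg_left h5 hθ0).trans h1
    have h7 := mul_le_mul_of_nonneg_right h6 (sub_nonneg.2 h)
    have h8 : 0 ≤ D ^ b * (D ^ 2 * (1 - θ) / 4) := by
      have : 0 ≤ 1 - θ := by linarith
      positivity
    nlinarith
  · have h1 : (d.descFactorial (b + 1) : ℝ) ≤ D ^ b * d := by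
      calc (d.descFactorial (b + 1) : ℝ) ≤ (d : ℝ) ^ (b + 1) := by
            exact_mod_cast Nat.descFactorial_le_pow d (b + 1)
        _ = (d : ℝ) ^ b * d := pow_succ _ _
        _ ≤ _ := mul_le_mul_of_nonneg_right (pow_le_pow_left₀ hd0 h.le _) hd0
    have h2 := mul_le_mul_of_nonneg_right h1 (sub_nonneg.2 h.le)
    have h3 : 0 ≤ D ^ b * ((1 - θ) * (d - D / 2) ^ 2) := by
      have : 0 ≤ 1 - θ := by linarith
      positivity
    nlinarith

theorem conc : StmConc := by
  intro s L hs hL ε hε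
  -- wlog `ε ≤ 1`
  set e : ℝ := min ε 1 with he
  have he0 : 0 < e := lt_min hε one_pos
  have he1 : e ≤ 1 := min_le_right _ _
  have heε : e ≤ ε := min_le_left _ _
  have hs0 : (3 : ℝ) ≤ s := by exact_mod_cast hs
  have hL1 : (1 : ℝ) ≤ L := by exact_mod_cast hL
  set δ : ℝ := e ^ 2 / 64 with hδ
  have hδ0 : 0 < δ := by positivity
  have hδ1 : δ ≤ 1 / 64 := by
    rw [hδ]
    have : e ^ 2 ≤ 1 := by nlinarith
    linarith
  set K : ℝ := s ^ 2 / δ with hK
  have hK0 : 0 < K := by positivity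
  have hKδ : (s : ℝ) ^ 2 = δ * K := by
    rw [hK]; field_simp
  refine ⟨δ / 2, K, by positivity, hK0, ?_⟩
  intro α _ d n D hn hDn hKD hKm hsum hdeg
  set m : ℝ := (Fintype.card α : ℝ) with hm
  have hm0 : 0 ≤ m := Nat.cast_nonneg _
  have hD0 : 0 < D := lt_of_lt_of_le hK0 hKD
  set D' : ℝ := D + s with hD'
  have hD'0 : 0 < D' := by positivity
  have hs2 : (2 : ℝ) * s ≤ (s : ℝ) ^ 2 := by rw [sq]; exact mul_le_mul_of_nonneg_right (by linarith) (by linarith)
  have hs1 : (s : ℝ) ≤ (s : ℝ) ^ 2 := by linarith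
  have hKs : (s : ℝ) ^ 2 ≤ δ * D := by rw [hKδ]; exact mul_le_mul_of_nonneg_left hKD hδ0.le
  obtain ⟨a, ha⟩ : ∃ a, s = a + 2 := ⟨s - 2, by omega⟩
  have ha1 : 1 ≤ a := by omega
  have hsa : (s : ℝ) = a + 2 := by rw [ha]; push_cast; ring
  have haD : (a : ℝ) < D' := by rw [hD', hsa]; linarith
  set θ : ℝ := (1 - a / D') ^ a with hθ
  have hθ1 : 1 - δ ≤ θ := by
    have h1 : 1 + (a : ℝ) * (-(a / D')) ≤ (1 + (-(a / D'))) ^ a := by
      refine one_add_mul_le_pow ?_ a
      have : (a : ℝ) / D' ≤ 1 := (div_le_one hD'0).2 haD.le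
      linarith
    have h2 : (a : ℝ) * (a / D') ≤ δ := by
      rw [mul_div_assoc', div_le_iff₀ hD'0]
      have h3 : (a : ℝ) * a ≤ (s : ℝ) ^ 2 := by
        rw [hsa]
        have : (0 : ℝ) ≤ a := Nat.cast_nonneg _
        nlinarith
      have h4 : δ * D ≤ δ * D' := by
        refine mul_le_mul_of_nonneg_left ?_ hδ0.le
        rw [hD']; linarith
      linarith
    have h3 : (1 + (-((a : ℝ) / D'))) ^ a = θ := by rw [hθ, ← sub_eq_add_neg]
    rw [h3] at h1
    linarith
  have hθ2 : θ ≤ 1 := by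
    rw [hθ]
    refine pow_le_one₀ ?_ ?_
    · rw [sub_nonneg, div_le_one hD'0]; exact haD.le
    · have : 0 ≤ (a : ℝ) / D' := by positivity
      linarith
  have hθh : 1 / 2 ≤ θ := by linarith
  set u : α → ℝ := fun x => (d x : ℝ) / D' with hu
  -- the sum of `u (u - 1)`
  have hU : ∑ x, u x * (u x - 1) ≤ 5 / 2 * δ * m := by
    have h1 : D' ^ (a + 1) * (θ * ∑ x, u x * (u x - 1) - (1 - θ) / 4 * m) ≤ s * n ^ (s - 1) := by
      refine le_trans ?_ hsum
      calc D' ^ (a + 1) * (θ * ∑ x, u x * (u x - 1) - (1 - θ) / 4 * m) =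
            ∑ x, D' ^ (a + 1) * (θ * (u x * (u x - 1)) - (1 - θ) / 4) := by
              rw [← mul_sum, sum_sub_distrib, ← mul_sum, sum_const, nsmul_eq_mul, card_univ,
                ← hm, mul_comm ((1 - θ) / 4) m]
        _ ≤ ∑ x, ((d x).descFactorial (s - 2) : ℝ) * (d x - D - s) := by
              refine sum_le_sum fun x _ => ?_
              have h2 := pw a ha1 D' θ haD hθ (d x)
              have e2 : s - 2 = a := by omega
              rw [e2]
              refine h2.trans (le_of_eq ?_)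
              rw [hD']
              ring
    have h2 : (s : ℝ) * n ^ (s - 1) ≤ D' ^ (a + 1) * (s * D) := by
      have h3 : n ^ (s - 1) ≤ D ^ s := by
        rw [hDn]
        have : 0 ≤ n ^ (s - 1) := by positivity
        nlinarith
      have h4 : D ^ s ≤ D' ^ (a + 1) * D := by
        have e2 : s = (a + 1) + 1 := by omega
        rw [e2, pow_succ]
        refine mul_le_mul_of_nonneg_right (pow_le_pow_left₀ hD0.le ?_ _) hD0.le
        rw [hD']; linarith
      calc (s : ℝ) * n ^ (s - 1) ≤ s * (D' ^ (a + 1) * D) :=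
            mul_le_mul_of_nonneg_left (h3.trans h4) (Nat.cast_nonneg _)
        _ = _ := by ring
    have h3 : θ * ∑ x, u x * (u x - 1) - (1 - θ) / 4 * m ≤ s * D :=
      le_of_mul_le_mul_left (h1.trans h2) (by positivity)
    have h4 : s * D ≤ δ * m := by
      -- `s ≤ s ^ 2 = δ K`
      have h5 : (s : ℝ) ≤ δ * K := by rw [← hKδ]; exact hs1
      calc (s : ℝ) * D ≤ δ * K * D := mul_le_mul_of_nonneg_right h5 hD0.le
        _ = δ * (K * D) := by ring
        _ ≤ δ * m := mul_le_mul_of_nonneg_left hKm hδ0.le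
    have h6 : (1 - θ) / 4 * m ≤ δ / 4 * m := mul_le_mul_of_nonneg_right (by linarith) hm0
    by_contra hcon
    rw [not_le] at hcon
    have h7 : 0 ≤ 5 / 2 * δ * m := by positivity
    have h8 : 1 / 2 * ∑ x, u x * (u x - 1) ≤ θ * ∑ x, u x * (u x - 1) :=
      mul_le_mul_of_nonneg_right hθh (h7.trans hcon.le)
    linarith
  -- the sum of `u`
  have hS : (1 - 3 / 2 * δ) * m ≤ ∑ x, u x := by
    have h1 : ∑ x, u x = (∑ x, (d x : ℝ)) / D' := by rw [hu, sum_div]
    rw [h1, le_div_iff₀ hD'0]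
    refine le_trans ?_ hdeg
    have h2 : (1 - 3 / 2 * δ) * D' ≤ (1 - δ / 2) * D := by
      rw [hD']
      have h3 : (s : ℝ) ≤ δ * D := hs1.trans hKs
      have h4 : 0 ≤ δ * s := by positivity
      have h5 : (1 - 3 / 2 * δ) * (D + s) = D - 3 / 2 * (δ * D) + s - 3 / 2 * (δ * s) := by ring
      have h6 : (1 - δ / 2) * D = D - 1 / 2 * (δ * D) := by ring
      rw [h5, h6]
      linarith
    calc (1 - 3 / 2 * δ) * m * D' = m * ((1 - 3 / 2 * δ) * D') := by ring
      _ ≤ m * ((1 - δ / 2) * D) := mul_le_mul_of_nonneg_left h2 hm0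
      _ = _ := by ring
  have hV : ∑ x, (u x - 1) ^ 2 ≤ 4 * δ * m := by
    have h1 : ∑ x, (u x - 1) ^ 2 = ∑ x, u x * (u x - 1) - ∑ x, u x + m := by
      have h2 : ∀ x, (u x - 1) ^ 2 = u x * (u x - 1) - u x + 1 := fun x => by ring
      simp only [h2]
      rw [sum_add_distrib, sum_sub_distrib, sum_const, nsmul_eq_mul, card_univ, mul_one]
    rw [h1]
    linarith
  -- the bad vertices
  have hB : ((univ.filter (fun x => ¬ ((1 - ε) * D ≤ (d x : ℝ) ∧ (d x : ℝ) ≤ (1 + ε) * D))).card : ℝ) *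
      (e ^ 2 / 4) ≤ ∑ x, (u x - 1) ^ 2 := by
    calc ((univ.filter (fun x => ¬ ((1 - ε) * D ≤ (d x : ℝ) ∧ (d x : ℝ) ≤ (1 + ε) * D))).card : ℝ) *
          (e ^ 2 / 4) = ∑ x ∈ univ.filter (fun x => ¬ ((1 - ε) * D ≤ (d x : ℝ) ∧
            (d x : ℝ) ≤ (1 + ε) * D)), e ^ 2 / 4 := by rw [sum_const, nsmul_eq_mul]
      _ ≤ ∑ x ∈ univ.filter (fun x => ¬ ((1 - ε) * D ≤ (d x : ℝ) ∧
            (d x : ℝ) ≤ (1 + ε) * D)), (u x - 1) ^ 2 := by
          refine sum_le_sum fun x hx => ?_
          have hx' := (mem_filter.1 hx).2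
          rw [not_and_or, not_le, not_le] at hx'
          rcases hx' with h | h
          · -- small degree
            have h1 : u x ≤ 1 - e / 2 := by
              rw [hu]
              simp only
              rw [div_le_iff₀ hD'0, hD']
              have h2 : (1 - ε) * D ≤ (1 - e) * D := mul_le_mul_of_nonneg_right (by linarith) hD0.le
              have h3 : (1 - e / 2) * (D + s) = (1 - e) * D + e / 2 * D + (1 - e / 2) * s := by ring
              have h4 : 0 ≤ e / 2 * D := by positivity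
              have h5 : 0 ≤ (1 - e / 2) * s := mul_nonneg (by linarith) (by linarith)
              rw [h3]
              linarith
            have h6 : e / 2 ≤ 1 - u x := by linarith
            calc e ^ 2 / 4 = (e / 2) ^ 2 := by ring
              _ ≤ (1 - u x) ^ 2 := pow_le_pow_left₀ (by linarith) h6 2
              _ = (u x - 1) ^ 2 := by ring
          · have h1 : 1 + e / 2 ≤ u x := by
              rw [hu]
              simp only
              rw [le_div_iff₀ hD'0, hD']
              have h2 : (1 + e) * D ≤ (1 + ε) * D := mul_le_mul_of_nonneg_right (by linarith) hD0.le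
              have h3 : (1 + e / 2) * s ≤ e / 2 * D := by
                have h4 : (1 + e / 2) * s ≤ 2 * s := mul_le_mul_of_nonneg_right (by linarith) (by linarith)
                have h6 : δ ≤ e / 2 := by
                  rw [hδ]
                  have : e ^ 2 ≤ e * 1 := by rw [sq]; exact mul_le_mul_of_nonneg_left he1 he0.le
                  linarith
                have h7 : δ * D ≤ e / 2 * D := mul_le_mul_of_nonneg_right h6 hD0.le
                linarith
              have h4 : (1 + e / 2) * (D + s) = (1 + e) * D - e / 2 * D + (1 + e / 2) * s := by ring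
              rw [h4]
              linarith
            have h6 : e / 2 ≤ u x - 1 := by linarith
            calc e ^ 2 / 4 = (e / 2) ^ 2 := by ring
              _ ≤ (u x - 1) ^ 2 := pow_le_pow_left₀ (by linarith) h6 2
      _ ≤ ∑ x, (u x - 1) ^ 2 :=
          sum_le_sum_of_subset_of_nonneg (filter_subset _ _) fun _ _ _ => sq_nonneg _
  have hC : ((univ.filter (fun x => (1 - ε) * D ≤ (d x : ℝ) ∧ (d x : ℝ) ≤ (1 + ε) * D)).card : ℝ) +
      ((univ.filter (fun x => ¬ ((1 - ε) * D ≤ (d x : ℝ) ∧ (d x : ℝ) ≤ (1 + ε) * D))).card : ℝ) =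
      m := by
    have := Finset.card_filter_add_card_filter_not (s := (univ : Finset α))
      (fun x => (1 - ε) * D ≤ (d x : ℝ) ∧ (d x : ℝ) ≤ (1 + ε) * D)
    rw [hm, ← card_univ]
    exact_mod_cast this
  have hF : ((univ.filter (fun x => ¬ ((1 - ε) * D ≤ (d x : ℝ) ∧
      (d x : ℝ) ≤ (1 + ε) * D))).card : ℝ) ≤ m / 4 := by
    have h1 := hB.trans hV
    rw [hδ] at h1
    have h2 : 0 < e ^ 2 / 4 := by positivity
    have h3 : 4 * (e ^ 2 / 64) * m = m / 4 * (e ^ 2 / 4) := by ring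
    rw [h3] at h1
    exact le_of_mul_le_mul_right h1 h2
  linarith

end Pool.Agent.N147.ZK
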