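import Pool.Agent.N396.ZK.Stm

/-!
Project ZK: Füredi's inequality for the row degrees.
-/

set_option autoImplicit false

namespace Pool.Agent.N147.ZK

open Finset Classical Pool.Agent.N396.ZK

theorem mem_com {α β : Type} (R : α → β → Prop) (Q : Finset β) (A : Finset α) (y : β) :
    y ∈ com R Q A ↔ y ∈ Q ∧ ∀ x ∈ A, R x y := by
  unfold com
  exact mem_filter

theorem mem_rws {α β : Type} (R : α → β → Prop) (P : Finset α) (B : Finset β) (x : α) :
    x ∈ rws R P B ↔ x ∈ P ∧ ∀ y ∈ B, R x y := by
  unfold rws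
  exact mem_filter

variable {α β : Type} [Fintype α] [Fintype β] (R : α → β → Prop)

/-- `y` has a one in all rows of `A` -/
def PA (A : Finset α) (y : β) : Prop := ∀ x ∈ A, R x y

/-- `x` has a one in all columns of `B` -/
def PB (B : Finset β) (x : α) : Prop := ∀ y ∈ B, R x y

/-- double counting of the pairs `(A, y)` -/
theorem double (s k L : ℕ) (hL : ∀ A : Finset α, A.card = s → (com R univ A).card ≤ L + k)
    (B : Finset β) (hB : B.card = k) :
    ∑ y ∈ univ \ B, (((rws R univ B).filter (fun x => R x y)).card).choose s ≤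
      L * ((rws R univ B).card).choose s := by
  have h1 : ∀ y, (((rws R univ B).filter (fun x => R x y)).card).choose s =
      ∑ A ∈ (rws R univ B).powersetCard s, if PA R A y then 1 else 0 := by
    intro y
    rw [← card_powersetCard, ← card_filter]
    congr 1
    ext A
    rw [mem_filter, mem_powersetCard, mem_powersetCard]
    simp only [subset_iff, PA, mem_filter]
    constructor
    · rintro ⟨h, h'⟩
      exact ⟨⟨fun x hx => (h hx).1, h'⟩, fun x hx => (h hx).2⟩
    · rintro ⟨⟨h, h'⟩, h''⟩
      exact ⟨fun x hx => ⟨h hx, h'' x hx⟩, h'⟩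
  simp only [h1]
  rw [sum_comm, mul_comm]
  have h2 : ∀ A ∈ (rws R univ B).powersetCard s,
      ∑ y ∈ univ \ B, (if PA R A y then 1 else 0) ≤ L := by
    intro A hA
    rw [mem_powersetCard] at hA
    rw [← card_filter]
    have h3 := hL A hA.2
    have h4 : ((univ \ B).filter fun y => PA R A y) ∪ B ⊆ com R univ A := by
      intro y hy
      rw [mem_com]
      refine ⟨mem_univ _, fun x hx => ?_⟩
      rcases mem_union.1 hy with h | h
      · exact (mem_filter.1 h).2 x hx
      · exact ((mem_rws _ _ _ _).1 (hA.1 hx)).2 y h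
    have h5 : Disjoint ((univ \ B).filter fun y => PA R A y) B := by
      rw [disjoint_left]
      intro y hy hy'
      exact (mem_sdiff.1 (mem_filter.1 hy).1).2 hy'
    have h6 := card_le_card h4
    rw [card_union_of_disjoint h5, hB] at h6
    omega
  refine (sum_le_sum h2).trans ?_
  rw [sum_const, card_powersetCard, smul_eq_mul]

theorem step (s L : ℕ) (D : ℝ) (hs : 2 ≤ s) (hD : 0 ≤ D)
    (hDn : D ^ s = L * (Fintype.card β : ℝ) ^ (s - 1))
    (hL : ∀ A : Finset α, A.card = s → (com R univ A).card ≤ L + s - 2)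
    (B : Finset β) (hB : B.card = s - 2) :
    ∑ x ∈ rws R univ B, (((row R univ x).card : ℝ) - D - s) ≤ s * (Fintype.card β : ℝ) := by
  set n := Fintype.card β with hn
  set C := rws R univ B with hC
  set z : β → ℕ := fun y => (C.filter (fun x => R x y)).card with hz
  have h1 : ∑ y ∈ univ \ B, (z y).choose s ≤ L * (C.card).choose s :=
    double R s (s - 2) L (fun A hA => by have := hL A hA; omega) B hB
  have h2 : ∑ y ∈ univ \ B, (z y - (s - 1)) ^ s ≤ L * C.card ^ s := by
    calc ∑ y ∈ univ \ B, (z y - (s - 1)) ^ s ≤ ∑ y ∈ univ \ B, s.factorial * (z y).choose s := by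
          refine sum_le_sum fun y _ => ?_
          rw [← Nat.descFactorial_eq_factorial_mul_choose]
          have h := Nat.pow_sub_le_descFactorial (z y) s
          have e : z y + 1 - s = z y - (s - 1) := by omega
          rwa [e] at h
      _ = s.factorial * ∑ y ∈ univ \ B, (z y).choose s := by rw [mul_sum]
      _ ≤ s.factorial * (L * (C.card).choose s) := Nat.mul_le_mul_left _ h1
      _ = L * (C.card).descFactorial s := by
          rw [Nat.descFactorial_eq_factorial_mul_choose]; ring
      _ ≤ L * C.card ^ s := Nat.mul_le_mul_left _ (Nat.descFactorial_le_pow _ _)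
  have h3 : (∑ y ∈ univ \ B, ((z y - (s - 1) : ℕ) : ℝ)) ≤ D * C.card := by
    have hn0 : (0 : ℝ) ≤ n := Nat.cast_nonneg _
    rcases (univ \ B).eq_empty_or_nonempty with he | he
    · rw [he, sum_empty]
      positivity
    have h4 := pow_sum_le_card_mul_sum_pow (s := univ \ B)
      (f := fun y => ((z y - (s - 1) : ℕ) : ℝ)) (fun y _ => Nat.cast_nonneg _) (s - 1)
    rw [Nat.sub_add_cancel (by omega : 1 ≤ s)] at h4
    have h5 : (∑ y ∈ univ \ B, ((z y - (s - 1) : ℕ) : ℝ) ^ s) ≤ L * (C.card : ℝ) ^ s := by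
      exact_mod_cast h2
    have h6 : ((univ \ B).card : ℝ) ≤ n := by
      rw [hn]; exact_mod_cast card_le_univ _
    have h7 : (∑ y ∈ univ \ B, ((z y - (s - 1) : ℕ) : ℝ)) ^ s ≤ (D * C.card) ^ s := by
      calc (∑ y ∈ univ \ B, ((z y - (s - 1) : ℕ) : ℝ)) ^ s ≤
          ((univ \ B).card : ℝ) ^ (s - 1) * ∑ y ∈ univ \ B, ((z y - (s - 1) : ℕ) : ℝ) ^ s := h4
        _ ≤ (n : ℝ) ^ (s - 1) * (L * (C.card : ℝ) ^ s) := by
            refine mul_le_mul (pow_le_pow_left₀ (Nat.cast_nonneg _) h6 _) h5 ?_ (by positivity)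
            exact sum_nonneg fun _ _ => by positivity
        _ = (D * C.card) ^ s := by rw [mul_pow, hDn]; ring
    exact le_of_pow_le_pow_left₀ (by omega) (by positivity) h7
  have h8 : (∑ y ∈ univ \ B, (z y : ℝ)) ≤ D * C.card + (s - 1) * n := by
    have h9 : ∀ y ∈ univ \ B, (z y : ℝ) ≤ ((z y - (s - 1) : ℕ) : ℝ) + (s - 1) := by
      intro y _
      have h10 : z y ≤ (z y - (s - 1)) + (s - 1) := by omega
      have h11 : (z y : ℝ) ≤ ((z y - (s - 1) : ℕ) : ℝ) + ((s - 1 : ℕ) : ℝ) := by exact_mod_cast h10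
      rw [Nat.cast_sub (by omega : 1 ≤ s)] at h11
      simpa using h11
    have hs1 : (0 : ℝ) ≤ (s : ℝ) - 1 := by
      have : (2 : ℝ) ≤ s := by exact_mod_cast hs
      linarith
    calc (∑ y ∈ univ \ B, (z y : ℝ)) ≤ ∑ y ∈ univ \ B, (((z y - (s - 1) : ℕ) : ℝ) + (s - 1)) :=
          sum_le_sum h9
      _ = (∑ y ∈ univ \ B, ((z y - (s - 1) : ℕ) : ℝ)) + (univ \ B).card * (s - 1) := by
          rw [sum_add_distrib, sum_const, nsmul_eq_mul]
      _ ≤ D * C.card + n * (s - 1) := by
          refine add_le_add h3 (mul_le_mul_of_nonneg_right ?_ hs1)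
          rw [hn]; exact_mod_cast card_le_univ _
      _ = _ := by ring
  -- the sum of the degrees
  have h12 : ∑ x ∈ C, ((row R univ x).card : ℝ) = ∑ y, (z y : ℝ) := by
    have h13 : ∑ x ∈ C, (row R univ x).card = ∑ y, z y := by
      have e1 : ∀ x, (row R univ x).card = ∑ y : β, if R x y then 1 else 0 := by
        intro x
        unfold row
        rw [card_filter]
      have e2 : ∀ y, z y = ∑ x ∈ C, if R x y then 1 else 0 := by
        intro y
        rw [hz]
        simp only
        rw [card_filter]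
      simp only [e1, e2]
      rw [sum_comm]
    exact_mod_cast h13
  have h14 : ∑ y, (z y : ℝ) = (∑ y ∈ univ \ B, (z y : ℝ)) + (s - 2) * C.card := by
    rw [← sum_sdiff (subset_univ B)]
    congr 1
    have h15 : ∀ y ∈ B, (z y : ℝ) = C.card := by
      intro y hy
      rw [hz]
      simp only
      rw [filter_true_of_mem]
      intro x hx
      rw [hC] at hx
      exact ((mem_rws _ _ _ _).1 hx).2 y hy
    rw [sum_congr rfl h15, sum_const, hB, nsmul_eq_mul, Nat.cast_sub hs]
    norm_num
  rw [sum_sub_distrib, sum_sub_distrib, h12, h14, sum_const, sum_const, nsmul_eq_mul, nsmul_eq_mul]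
  have hc0 : (0 : ℝ) ≤ C.card := Nat.cast_nonneg _
  have hn0 : (0 : ℝ) ≤ n := Nat.cast_nonneg _
  nlinarith

theorem deg : StmDeg := by
  intro α β _ _ R s L D hs hD hDn hL
  set n := Fintype.card β with hn
  have h1 : ∑ B ∈ (univ : Finset β).powersetCard (s - 2),
      ∑ x ∈ rws R univ B, (((row R univ x).card : ℝ) - D - s) ≤
      (n.choose (s - 2) : ℝ) * (s * n) := by
    have h := sum_le_sum fun B (hB : B ∈ (univ : Finset β).powersetCard (s - 2)) =>
      step R s L D hs hD hDn hL B (mem_powersetCard.1 hB).2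
    refine h.trans (le_of_eq ?_)
    rw [sum_const, card_powersetCard, card_univ, nsmul_eq_mul]
  have h2 : ∑ B ∈ (univ : Finset β).powersetCard (s - 2),
      ∑ x ∈ rws R univ B, (((row R univ x).card : ℝ) - D - s) =
      ∑ x, ((row R univ x).card.choose (s - 2) : ℝ) * (((row R univ x).card : ℝ) - D - s) := by
    have e1 : ∀ B : Finset β, ∑ x ∈ rws R univ B, (((row R univ x).card : ℝ) - D - s) =
        ∑ x : α, if PB R B x then (((row R univ x).card : ℝ) - D - s) else 0 := by
      intro B
      rw [← sum_filter]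
      refine sum_congr ?_ fun _ _ => rfl
      ext x
      rw [mem_rws, mem_filter]
      exact Iff.rfl
    simp only [e1]
    rw [sum_comm]
    refine sum_congr rfl fun x _ => ?_
    rw [← sum_filter, sum_const, nsmul_eq_mul]
    congr 2
    rw [← card_powersetCard]
    congr 1
    ext B
    rw [mem_filter, mem_powersetCard, mem_powersetCard]
    simp only [subset_iff, row, mem_filter, mem_univ, true_and, implies_true, PB]
    tauto
  rw [h2] at h1
  have h3 : ∀ x : α, ((row R univ x).card.descFactorial (s - 2) : ℝ) *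
      (((row R univ x).card : ℝ) - D - s) = ((s - 2).factorial : ℝ) *
      (((row R univ x).card.choose (s - 2) : ℝ) * (((row R univ x).card : ℝ) - D - s)) := by
    intro x
    rw [Nat.descFactorial_eq_factorial_mul_choose]
    push_cast
    ring
  rw [sum_congr rfl fun x _ => h3 x, ← mul_sum]
  have h4 : ((s - 2).factorial : ℝ) * ((n.choose (s - 2) : ℝ) * (s * n)) =
      s * n * (n.descFactorial (s - 2) : ℝ) := by
    rw [Nat.descFactorial_eq_factorial_mul_choose]
    push_cast
    ring
  calc ((s - 2).factorial : ℝ) * ∑ x, ((row R univ x).card.choose (s - 2) : ℝ) *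
        (((row R univ x).card : ℝ) - D - s) ≤
      ((s - 2).factorial : ℝ) * ((n.choose (s - 2) : ℝ) * (s * n)) :=
        mul_le_mul_of_nonneg_left h1 (Nat.cast_nonneg _)
    _ = s * n * (n.descFactorial (s - 2) : ℝ) := h4
    _ ≤ s * n * (n : ℝ) ^ (s - 2) := by
        refine mul_le_mul_of_nonneg_left ?_ (by positivity)
        exact_mod_cast Nat.descFactorial_le_pow _ _
    _ = s * (n : ℝ) ^ (s - 1) := by
        have e : s - 1 = (s - 2) + 1 := by omega
        rw [e, pow_succ]
        ring

end Pool.Agent.N147.ZK
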